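import Pool.Agent.ClusterPoset.Final

/-!
# Concentration of heights in random linear extensions of cluster posets

For all `1 ≤ a < b ≤ m` and all `ε > 0`, the probability that in a uniformly random linear extension
of the cluster poset `P_n^{m,a,b}` every distinguished element `X_i`, `0 ≤ i ≤ n`, has height
`|P_n| f((i+1)/(n+2))` up to `ε |P_n|` tends to `1`.

Definitions: `Pool/Agent/ClusterPoset/Defs.lean`.
-/

set_option autoImplicit false

namespace Pool.Agent.Results.MP_2d2444_co.HeightConcentration

open Filter Pool.Agent.ClusterPoset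

theorem result : ∀ m a b : ℕ, 1 ≤ a → a < b → b ≤ m → ∀ ε : ℝ, 0 < ε →
    Tendsto (fun n : ℕ => prob n m a b ε) atTop (nhds 1) :=
  fun m a b h1 h2 h3 ε hε => main m a b h1 h2 h3 ε hε

end Pool.Agent.Results.MP_2d2444_co.HeightConcentration
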